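import Pool.Agent.H.MP_b5276a_an.Defs

set_option linter.unusedSimpArgs false
set_option linter.unusedVariables false

namespace Pool.Agent.H.MP_b5276a_an
open scoped TensorProduct

variable {X : Type*} [NormedAddCommGroup X] [NormedSpace ℝ X]

noncomputable abbrev sq (x : X) : X ⊗[ℝ] X := x ⊗ₜ[ℝ] x

lemma sq_mem (x : X) : sq x ∈ symSub X := Submodule.subset_span ⟨x, rfl⟩

lemma sum_mem {ι : Type*} [Fintype ι] (l : ι → ℝ) (x : ι → X) :
    ∑ i, l i • sq (x i) ∈ symSub X :=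
  Submodule.sum_mem _ fun i _ => Submodule.smul_mem _ _ (sq_mem _)

lemma piS_le {ι : Type*} [Fintype ι] (l : ι → ℝ) (x : ι → X) :
    piS (∑ i, l i • sq (x i)) ≤ ∑ i, |l i| * ‖x i‖ ^ 2 := by
  let e := (Fintype.equivFin ι).symm
  refine csInf_le (costs_bdd _) ⟨_, l ∘ e, x ∘ e, ?_, ?_⟩
  · exact (Equiv.sum_comp e fun i => l i • sq (x i)).symm
  · exact (Equiv.sum_comp e fun i => |l i| * ‖x i‖ ^ 2).symm

lemma piS_sq (c : ℝ) (x : X) : piS (c • sq x) ≤ |c| * ‖x‖ ^ 2 := by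
  simpa using piS_le (ι := Unit) (fun _ => c) (fun _ => x)

lemma piS_sub {u v : X ⊗[ℝ] X} (hu : u ∈ symSub X) (hv : v ∈ symSub X) :
    piS (u - v) ≤ piS u + piS v := by
  rw [sub_eq_add_neg, ← piS_neg v]
  exact piS_add hu (Submodule.neg_mem _ hv)

lemma piS_smul {u : X ⊗[ℝ] X} (hu : u ∈ symSub X) (c : ℝ) : piS (c • u) ≤ |c| * piS u := by
  refine le_of_forall_pos_le_add fun ε hε => ?_
  have hc : 0 < |c| + 1 := by positivity
  obtain ⟨_, ⟨m, l, x, rfl, rfl⟩, h2⟩ := exists_lt_of_csInf_lt (costs_ne hu)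
    (show piS u < piS u + ε / (|c| + 1) by linarith [div_pos hε hc])
  have h := piS_le (fun i => c * l i) x
  simp only [mul_smul, abs_mul, mul_assoc] at h
  rw [← Finset.smul_sum, ← Finset.mul_sum] at h
  refine h.trans ((mul_le_mul_of_nonneg_left h2.le (abs_nonneg c)).trans ?_)
  have : |c| * (ε / (|c| + 1)) ≤ ε := by
    rw [← mul_div_assoc, div_le_iff₀ hc]; nlinarith
  unfold piS
  linarith

lemma polar (a b : X) {t : ℝ} (ht : t ≠ 0) : a ⊗ₜ[ℝ] b + b ⊗ₜ[ℝ] a =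
    (1 / 2 : ℝ) • sq (t • a + t⁻¹ • b) - (1 / 2 : ℝ) • sq (t • a - t⁻¹ • b) := by
  simp only [sq, TensorProduct.add_tmul, TensorProduct.tmul_add, TensorProduct.sub_tmul,
    TensorProduct.tmul_sub, ← TensorProduct.smul_tmul', TensorProduct.tmul_smul]
  match_scalars <;> field_simp <;> ring

lemma polar_mem (a b : X) : a ⊗ₜ[ℝ] b + b ⊗ₜ[ℝ] a ∈ symSub X := by
  rw [polar a b one_ne_zero]
  exact Submodule.sub_mem _ (Submodule.smul_mem _ _ (sq_mem _)) (Submodule.smul_mem _ _ (sq_mem _))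

lemma piS_polar (a b : X) {t : ℝ} (ht : 0 < t) :
    piS (a ⊗ₜ[ℝ] b + b ⊗ₜ[ℝ] a) ≤ (t * ‖a‖ + ‖b‖ / t) ^ 2 := by
  rw [polar a b ht.ne']
  refine (piS_sub (Submodule.smul_mem _ _ (sq_mem _)) (Submodule.smul_mem _ _ (sq_mem _))).trans ?_
  have h1 := piS_sq (1 / 2) (t • a + t⁻¹ • b)
  have h2 := piS_sq (1 / 2) (t • a - t⁻¹ • b)
  have e : ‖t • a‖ + ‖t⁻¹ • b‖ = t * ‖a‖ + ‖b‖ / t := by
    rw [norm_smul, norm_smul, Real.norm_of_nonneg ht.le, Real.norm_of_nonneg (inv_pos.2 ht).le]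
    ring
  have h3 := pow_le_pow_left₀ (norm_nonneg _) ((norm_add_le (t • a) (t⁻¹ • b)).trans e.le) 2
  have h4 := pow_le_pow_left₀ (norm_nonneg _) ((norm_sub_le (t • a) (t⁻¹ • b)).trans e.le) 2
  rw [abs_of_pos (by norm_num : (0 : ℝ) < 1 / 2)] at h1 h2
  linarith

lemma sq_add_sub (a b : X) : sq (a + b) + sq (a - b) = (2 : ℝ) • sq a + (2 : ℝ) • sq b := by
  simp only [sq, TensorProduct.add_tmul, TensorProduct.tmul_add, TensorProduct.sub_tmul,
    TensorProduct.tmul_sub]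
  module

lemma sq_add (a b : X) : sq (a + b) = sq a + (a ⊗ₜ[ℝ] b + b ⊗ₜ[ℝ] a) + sq b := by
  simp only [sq, TensorProduct.add_tmul, TensorProduct.tmul_add]
  abel

lemma sq_smul (c : ℝ) (a : X) : sq (c • a) = (c ^ 2) • sq a := by
  simp only [sq, ← TensorProduct.smul_tmul', TensorProduct.tmul_smul, smul_smul, pow_two]

lemma rade (J : (ℕ → ℝ) →ₗ[ℝ] X) : ∀ (m : ℕ) (a : Fin m → ℕ → ℝ),
    ∃ (ι : Type) (_ : Fintype ι) (y : ι → ℕ → ℝ) (w : ℝ), 0 ≤ w ∧ ∑ _i : ι, w = 1 ∧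
      ∑ i, w • sq (J (y i)) = ∑ i, sq (J (a i)) ∧
      ∀ k, ∑ i, w * y i k ^ 2 = ∑ i, a i k ^ 2 ∧
        ∑ i, w * y i k ^ 4 ≤ 3 * (∑ i, a i k ^ 2) ^ 2 := by
  intro m
  induction m with
  | zero =>
    intro a
    exact ⟨Unit, inferInstance, fun _ => 0, 1, zero_le_one, by simp, by simp [sq], by simp⟩
  | succ m ih =>
    intro a
    obtain ⟨ι, inst, y, w, h0, h1, h2, h3⟩ := ih fun i => a i.succ
    refine ⟨ι × Bool, inferInstance, fun p => if p.2 then y p.1 + a 0 else y p.1 - a 0, w / 2,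
      by linarith, ?_, ?_, fun k => ?_⟩
    · rw [Fintype.sum_prod_type, ← h1]
      exact Finset.sum_congr rfl fun i _ => by simp; ring
    · rw [Fintype.sum_prod_type, Fin.sum_univ_succ, ← h2]
      have : ∀ i, ∑ b : Bool, (w / 2) • sq (J (if b then y i + a 0 else y i - a 0)) =
          w • sq (J (a 0)) + w • sq (J (y i)) := by
        intro i
        rw [Fintype.sum_bool, if_pos rfl, if_neg (by simp), map_add, map_sub, ← smul_add,
          sq_add_sub]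
        module
      simp only [this]
      rw [Finset.sum_add_distrib, ← Finset.sum_smul, h1, one_smul]
    · obtain ⟨k1, k2⟩ := h3 k
      rw [Fintype.sum_prod_type, Fintype.sum_prod_type, Fin.sum_univ_succ]
      have e1 : ∀ i, ∑ b : Bool, (w / 2) * (if b then y i + a 0 else y i - a 0) k ^ 2 =
          w * a 0 k ^ 2 + w * y i k ^ 2 := by
        intro i
        rw [Fintype.sum_bool, if_pos rfl, if_neg (by simp)]
        simp only [Pi.add_apply, Pi.sub_apply]; ring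
      have e2 : ∀ i, ∑ b : Bool, (w / 2) * (if b then y i + a 0 else y i - a 0) k ^ 4 =
          w * a 0 k ^ 4 + (6 * a 0 k ^ 2) * (w * y i k ^ 2) + w * y i k ^ 4 := by
        intro i
        rw [Fintype.sum_bool, if_pos rfl, if_neg (by simp)]
        simp only [Pi.add_apply, Pi.sub_apply]; ring
      simp only [e1, e2]
      rw [Finset.sum_add_distrib, Finset.sum_add_distrib, Finset.sum_add_distrib,
        ← Finset.sum_mul, ← Finset.sum_mul, ← Finset.mul_sum _ _ (6 * a 0 k ^ 2), h1, k1]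
      refine ⟨by ring, ?_⟩
      have : 0 ≤ a 0 k ^ 4 := by positivity
      nlinarith

noncomputable def clp (T x : ℝ) : ℝ := max (-T) (min T x)

lemma clp_abs {T : ℝ} (hT : 0 ≤ T) (x : ℝ) : |clp T x| ≤ T := by
  unfold clp; rw [abs_le]
  exact ⟨le_max_left _ _, max_le (by linarith) (min_le_left _ _)⟩

lemma clp_sq {T : ℝ} (hT : 0 ≤ T) (x : ℝ) : clp T x ^ 2 ≤ x ^ 2 := by
  unfold clp
  rcases min_cases T x with a | a <;> rw [a.1]
  · rw [max_eq_right (by linarith)]; nlinarith [a.2]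
  · rcases max_cases (-T) x with b | b <;> rw [b.1]
    nlinarith [b.2]

lemma clp_rem {T : ℝ} (hT : 0 ≤ T) (x : ℝ) : 16 * T ^ 2 * (x - clp T x) ^ 2 ≤ x ^ 4 := by
  have key : ∀ z : ℝ, T ≤ z → 16 * T ^ 2 * (z - T) ^ 2 ≤ z ^ 4 := by
    intro z hz
    have h1 : 0 ≤ 4 * T * (z - T) := by nlinarith
    have h2 : 4 * T * (z - T) ≤ z ^ 2 := by nlinarith [sq_nonneg (z - 2 * T)]
    have := pow_le_pow_left₀ h1 h2 2
    nlinarith
  unfold clp
  rcases min_cases T x with a | a <;> rw [a.1]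
  · rw [max_eq_right (by linarith)]; exact key x a.2
  · rcases max_cases (-T) x with b | b <;> rw [b.1]
    · have := key (-x) (by linarith [b.2])
      nlinarith
    · simp; positivity

lemma fin_ineq {η q x1 x2 x3 x4 y0 y1 y2 y3 y4 : ℝ} (hη : 0 < η) (hq : 0 ≤ q)
    (b1 : x1 ≤ 16 * η) (b2 : x2 ≤ (32 + q) * (4 / 9 * η)) (b3 : x3 ≤ (32 + q) * (4 / 9 * η))
    (b4 : x4 ≤ (32 + q) * (η / 81)) (c1 : y0 ≤ y1 + x4) (c2 : y1 ≤ x1 + y2) (c3 : y2 ≤ y3 + y4)
    (c4 : y3 ≤ 1 / 2 * x2) (c5 : y4 ≤ 1 / 2 * x3) : y0 ≤ (32 + q / 2) * η := by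
  have := mul_nonneg hq hη.le
  nlinarith

lemma groth (F : Finset ℕ) (J : (ℕ → ℝ) →ₗ[ℝ] X)
    (hJ : ∀ (a : ℕ → ℝ) (T : ℝ), 0 ≤ T → (∀ k ∈ F, |a k| ≤ T) → ‖J a‖ ≤ T) (n : ℕ) :
    ∀ (η : ℝ), 0 < η → ∀ (ι : Type) [Fintype ι] (c : ι → ℝ) (a : ι → ℕ → ℝ), (∀ i, 0 ≤ c i) →
      (∀ k ∈ F, ∑ i, c i * a i k ^ 2 ≤ η) →
      piS (∑ i, c i • sq (J (a i))) ≤ (32 + F.card / 2 ^ n) * η := by
  induction n with
  | zero =>
    intro η hη ι _ c a hc h
    refine (piS_le _ _).trans ?_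
    have h1 : ∀ i, ‖J (a i)‖ ^ 2 ≤ ∑ k ∈ F, a i k ^ 2 := by
      intro i
      have h0 : 0 ≤ ∑ k ∈ F, a i k ^ 2 := by positivity
      have := hJ (a i) (Real.sqrt (∑ k ∈ F, a i k ^ 2)) (Real.sqrt_nonneg _) fun k hk =>
        Real.abs_le_sqrt (Finset.single_le_sum (f := fun k => a i k ^ 2)
          (fun k _ => by positivity) hk)
      exact (pow_le_pow_left₀ (norm_nonneg _) this 2).trans (Real.sq_sqrt h0).le
    calc ∑ i, |c i| * ‖J (a i)‖ ^ 2 ≤ ∑ i, c i * ∑ k ∈ F, a i k ^ 2 :=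
          Finset.sum_le_sum fun i _ => by
            rw [abs_of_nonneg (hc i)]; exact mul_le_mul_of_nonneg_left (h1 i) (hc i)
      _ = ∑ k ∈ F, ∑ i, c i * a i k ^ 2 := by
          simp only [Finset.mul_sum]; exact Finset.sum_comm
      _ ≤ ∑ k ∈ F, η := Finset.sum_le_sum h
      _ ≤ _ := by simp; nlinarith
  | succ n ih =>
    intro η hη ι _ c a hc h
    have hq : 0 ≤ (F.card : ℝ) / 2 ^ n := by positivity
    have e4 : (F.card : ℝ) / 2 ^ (n + 1) = F.card / 2 ^ n / 2 := by rw [pow_succ]; field_simp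
    let e := (Fintype.equivFin ι).symm
    obtain ⟨κ, inst, y, w, h0, h1, h2, h3⟩ := rade J _ fun i => Real.sqrt (c (e i)) • a (e i)
    have e1 : ∑ i, c i • sq (J (a i)) = ∑ i, w • sq (J (y i)) := by
      rw [h2, ← Equiv.sum_comp e]
      exact Finset.sum_congr rfl fun i _ => by rw [map_smul, sq_smul, Real.sq_sqrt (hc _)]
    have e2 : ∀ k ∈ F, ∑ i, (Real.sqrt (c (e i)) • a (e i)) k ^ 2 ≤ η := by
      intro k hk
      refine le_trans (le_of_eq ?_) (h k hk)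
      rw [← Equiv.sum_comp e]
      exact Finset.sum_congr rfl fun i _ => by
        rw [Pi.smul_apply, smul_eq_mul, mul_pow, Real.sq_sqrt (hc _)]
    have m2 : ∀ k ∈ F, ∑ i, w * y i k ^ 2 ≤ η := fun k hk => (h3 k).1.trans_le (e2 k hk)
    have m4 : ∀ k ∈ F, ∑ i, w * y i k ^ 4 ≤ 3 * η ^ 2 := fun k hk => (h3 k).2.trans (by
      have := pow_le_pow_left₀ (by positivity) (e2 k hk) 2
      linarith)
    set T := 4 * Real.sqrt η with hT
    have hT0 : 0 ≤ T := by positivity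
    have hT2 : T ^ 2 = 16 * η := by rw [hT, mul_pow, Real.sq_sqrt hη.le]; norm_num
    let p : κ → ℕ → ℝ := fun i k => clp T (y i k)
    let r : κ → ℕ → ℝ := fun i k => y i k - clp T (y i k)
    have hy : ∀ i, y i = p i + r i := fun i => by ext k; simp [p, r]
    have mp : ∀ k ∈ F, ∑ i, w * p i k ^ 2 ≤ η := fun k hk =>
      (Finset.sum_le_sum fun i _ => mul_le_mul_of_nonneg_left (clp_sq hT0 _) h0).trans (m2 k hk)
    have mr : ∀ k ∈ F, ∑ i, w * r i k ^ 2 ≤ η / 81 := by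
      intro k hk
      have a1 : 256 * η * ∑ i, w * r i k ^ 2 ≤ 3 * η ^ 2 := by
        refine le_trans ?_ (m4 k hk)
        rw [Finset.mul_sum]
        refine Finset.sum_le_sum fun i _ => ?_
        have := mul_le_mul_of_nonneg_left (clp_rem hT0 (y i k)) h0
        rw [hT2] at this
        simp only [r]
        linarith
      by_contra hc
      push Not at hc
      nlinarith
    have mq : ∀ s : ℝ, s ^ 2 = 1 → ∀ k ∈ F,
        ∑ i, w * ((1 / 3 : ℝ) • p i + (3 * s) • r i) k ^ 2 ≤ 4 / 9 * η := by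
      intro s hs k hk
      have a1 := mp k hk
      have a2 := mr k hk
      have a3 : ∑ i, w * ((1 / 3 : ℝ) • p i + (3 * s) • r i) k ^ 2 ≤
          ∑ i, ((2 / 9) * (w * p i k ^ 2) + 18 * (w * r i k ^ 2)) := by
        refine Finset.sum_le_sum fun i _ => ?_
        simp only [Pi.add_apply, Pi.smul_apply, smul_eq_mul]
        have : (1 / 3 * p i k + 3 * s * r i k) ^ 2 ≤ 2 / 9 * p i k ^ 2 + 18 * r i k ^ 2 := by
          have : (s * r i k) ^ 2 = r i k ^ 2 := by rw [mul_pow, hs, one_mul]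
          nlinarith [sq_nonneg (1 / 3 * p i k - 3 * s * r i k)]
        nlinarith [mul_le_mul_of_nonneg_left this h0]
      rw [Finset.sum_add_distrib, ← Finset.mul_sum _ _ (2 / 9), ← Finset.mul_sum _ _ 18] at a3
      linarith
    have e3 : ∑ i, w • sq (J (y i)) = ∑ i, w • sq (J (p i)) +
        ((1 / 2 : ℝ) • ∑ i, w • sq (J ((1 / 3 : ℝ) • p i + (3 * 1 : ℝ) • r i)) -
          (1 / 2 : ℝ) • ∑ i, w • sq (J ((1 / 3 : ℝ) • p i + (3 * (-1) : ℝ) • r i))) +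
        ∑ i, w • sq (J (r i)) := by
      rw [Finset.smul_sum, Finset.smul_sum, ← Finset.sum_sub_distrib, ← Finset.sum_add_distrib,
        ← Finset.sum_add_distrib]
      refine Finset.sum_congr rfl fun i _ => ?_
      rw [hy i, map_add, sq_add, polar _ _ (show (1 / 3 : ℝ) ≠ 0 by norm_num)]
      simp only [map_add, map_smul]
      rw [show ((1 / 3 : ℝ))⁻¹ = 3 * 1 by norm_num, show (3 * (-1) : ℝ) = -(3 * 1) by norm_num,
        neg_smul, ← sub_eq_add_neg]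
      module
    have b1 : piS (∑ i, w • sq (J (p i))) ≤ 16 * η := by
      refine (piS_le _ _).trans ?_
      calc ∑ i, |w| * ‖J (p i)‖ ^ 2 ≤ ∑ i : κ, w * (16 * η) := Finset.sum_le_sum fun i _ => by
            rw [abs_of_nonneg h0, ← hT2]
            exact mul_le_mul_of_nonneg_left (pow_le_pow_left₀ (norm_nonneg _)
              (hJ _ T hT0 fun k _ => clp_abs hT0 _) 2) h0
        _ = _ := by rw [← Finset.sum_mul, h1, one_mul]
    have b2 := ih (4 / 9 * η) (by positivity) κ (fun _ => w) _ (fun _ => h0) (mq 1 (by norm_num))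
    have b3 := ih (4 / 9 * η) (by positivity) κ (fun _ => w) _ (fun _ => h0) (mq (-1) (by norm_num))
    have b4 := ih (η / 81) (by positivity) κ (fun _ => w) _ (fun _ => h0) mr
    rw [e1, e3]
    have s1 := sum_mem (fun _ : κ => w) fun i => J (p i)
    have s2 := sum_mem (fun _ : κ => w) fun i => J ((1 / 3 : ℝ) • p i + (3 * 1 : ℝ) • r i)
    have s3 := sum_mem (fun _ : κ => w) fun i => J ((1 / 3 : ℝ) • p i + (3 * (-1) : ℝ) • r i)
    have s4 := sum_mem (fun _ : κ => w) fun i => J (r i)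
    have s2' := Submodule.smul_mem _ (1 / 2 : ℝ) s2
    have s3' := Submodule.smul_mem _ (1 / 2 : ℝ) s3
    have c1 := piS_add (Submodule.add_mem _ s1 (Submodule.sub_mem _ s2' s3')) s4
    have c2 := piS_add s1 (Submodule.sub_mem _ s2' s3')
    have c3 := piS_sub s2' s3'
    have c4 := piS_smul s2 (1 / 2)
    have c5 := piS_smul s3 (1 / 2)
    rw [abs_of_pos (by norm_num : (0 : ℝ) < 1 / 2)] at c4 c5
    rw [e4]
    exact fin_ineq hη hq b1 b2 b3 b4 c1 c2 c3 c4 c5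

lemma groth' (F : Finset ℕ) (J : (ℕ → ℝ) →ₗ[ℝ] X)
    (hJ : ∀ (a : ℕ → ℝ) (T : ℝ), 0 ≤ T → (∀ k ∈ F, |a k| ≤ T) → ‖J a‖ ≤ T)
    (η : ℝ) (hη : 0 < η) (ι : Type) [Fintype ι] (c : ι → ℝ) (a : ι → ℕ → ℝ) (hc : ∀ i, 0 ≤ c i)
    (h : ∀ k ∈ F, ∑ i, c i * a i k ^ 2 ≤ η) : piS (∑ i, c i • sq (J (a i))) ≤ 33 * η := by
  refine (groth F J hJ F.card η hη ι c a hc h).trans ?_
  have : (F.card : ℝ) / 2 ^ F.card ≤ 1 := by
    rw [div_le_one (by positivity)]
    exact_mod_cast Nat.lt_two_pow_self.le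
  nlinarith

end Pool.Agent.H.MP_b5276a_an
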