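import Pool.Agent.H.MP_b5276a_an.A

set_option linter.unusedSimpArgs false
set_option linter.unusedVariables false

namespace Pool.Agent.H.MP_b5276a_an
open scoped TensorProduct ZeroAtInfty
open Filter Topology

class SeqSp (X : Type) [NormedAddCommGroup X] [NormedSpace ℝ X] where
  co : ℕ → X →ₗ[ℝ] ℝ
  e : ℕ → X
  habs : ∀ x k, |co k x| ≤ ‖x‖
  hnorm : ∀ x {T : ℝ}, 0 ≤ T → (∀ k, |co k x| ≤ T) → ‖x‖ ≤ T
  hev : ∀ x {ε : ℝ}, 0 < ε → ∀ᶠ k in atTop, |co k x| ≤ ε
  happ : ∀ k j, co j (e k) = if j = k then 1 else 0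

open SeqSp

section
variable {C0 : Type} [NormedAddCommGroup C0] [NormedSpace ℝ C0] [SeqSp C0]

def cf (x : C0) : ℕ → ℝ := fun k => co k x

local instance : CoeFun C0 (fun _ => ℕ → ℝ) := ⟨cf⟩

variable (C0) in
def ee (k : ℕ) : C0 := e k

lemma c0_abs (x : C0) (k : ℕ) : |x k| ≤ ‖x‖ := habs x k
lemma c0_norm (x : C0) {T : ℝ} (hT : 0 ≤ T) (h : ∀ k, |x k| ≤ T) : ‖x‖ ≤ T := hnorm x hT h
lemma c0_ev (x : C0) {ε : ℝ} (hε : 0 < ε) : ∀ᶠ k in atTop, |x k| ≤ ε := hev x hε
lemma ee_app (k j : ℕ) : ee C0 k j = if j = k then 1 else 0 := happ k j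
lemma cf_add (x y : C0) (k : ℕ) : (x + y) k = x k + y k := map_add (co k) x y
lemma cf_sub (x y : C0) (k : ℕ) : (x - y) k = x k - y k := map_sub (co k) x y

lemma ee_norm (k : ℕ) : ‖ee C0 k‖ = 1 := by
  refine le_antisymm (c0_norm _ zero_le_one fun j => ?_) ?_
  · rw [ee_app]; split_ifs <;> simp
  · simpa [ee_app] using c0_abs (ee C0 k) k

lemma c0_asq : ASQ C0 := by
  intro s hs ε hε
  have : ∀ᶠ k in atTop, ∀ x ∈ s, |x k| ≤ ε :=
    (eventually_all_finset s).2 fun x _ => c0_ev x hε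
  obtain ⟨k, hk⟩ := this.exists
  refine ⟨ee C0 k, ee_norm k, fun x hx => ⟨c0_norm _ (by linarith) fun j => ?_,
    c0_norm _ (by linarith) fun j => ?_⟩⟩
  all_goals
    have h1 := c0_abs x j
    rw [hs x hx, abs_le] at h1
    have h2 := hk x hx
    rw [abs_le] at h2
    simp only [cf_add, cf_sub, ee_app]
    split_ifs with h
    · subst h; rw [abs_le]; constructor <;> linarith [h2.1, h2.2]
    · rw [abs_le]; constructor <;> linarith [h1.1, h1.2]

variable (C0) in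
noncomputable def JJ (F : Finset ℕ) : (ℕ → ℝ) →ₗ[ℝ] C0 where
  toFun := fun a => ∑ k ∈ F, a k • ee C0 k
  map_add' := fun a b => by
    rw [← Finset.sum_add_distrib]; exact Finset.sum_congr rfl fun k _ => add_smul _ _ _
  map_smul' := fun c a => by simp [Finset.smul_sum, mul_smul]

lemma JJ_app (F : Finset ℕ) (a : ℕ → ℝ) (j : ℕ) : JJ C0 F a j = if j ∈ F then a j else 0 := by
  show co j (∑ k ∈ F, a k • ee C0 k) = _
  rw [map_sum]
  simp [ee, happ]

lemma JJ_norm (F : Finset ℕ) (a : ℕ → ℝ) (T : ℝ) (hT : 0 ≤ T) (h : ∀ k ∈ F, |a k| ≤ T) :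
    ‖JJ C0 F a‖ ≤ T := c0_norm _ hT fun j => by
  rw [JJ_app]; split_ifs with k
  · exact h j k
  · simpa using hT

noncomputable def PP (F : Finset ℕ) : C0 →ₗ[ℝ] C0 where
  toFun := fun x => JJ C0 F x
  map_add' := fun x y => by rw [← map_add]; congr 1; ext k; exact cf_add x y k
  map_smul' := fun c x => by
    rw [RingHom.id_apply, ← map_smul]; congr 1; ext k; exact map_smul (co k) c x

noncomputable def ev (k : ℕ) : C0 ⊗[ℝ] C0 →ₗ[ℝ] ℝ :=
  (TensorProduct.lid ℝ ℝ).toLinearMap ∘ₗ TensorProduct.map (co k) (co k)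

lemma ev_sq (k : ℕ) (x : C0) : ev k (sq x) = x k ^ 2 := by simp [ev, sq, cf, pow_two]

lemma ev_le {u : C0 ⊗[ℝ] C0} (hu : u ∈ symSub C0) (k : ℕ) : |ev k u| ≤ piS u := by
  refine le_csInf (costs_ne hu) ?_
  rintro _ ⟨m, l, x, rfl, rfl⟩
  rw [map_sum]
  refine (Finset.abs_sum_le_sum_abs _ _).trans (Finset.sum_le_sum fun i _ => ?_)
  rw [map_smul, ev_sq, smul_eq_mul, abs_mul, abs_pow]
  gcongr
  exact c0_abs _ _

lemma piS_E : piS (sq (ee C0 0)) = 1 := by
  refine le_antisymm ?_ ?_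
  · simpa [ee_norm] using piS_sq 1 (ee C0 0)
  · simpa [ev_sq, ee_app] using ev_le (sq_mem (ee C0 0)) 0

noncomputable def QQ (n : ℕ) : C0 ⊗[ℝ] C0 →ₗ[ℝ] C0 ⊗[ℝ] C0 :=
  TensorProduct.map (PP (Finset.range n)) (PP (Finset.range n))

lemma QQ_sq (n : ℕ) (x : C0) : QQ n (sq x) = sq (JJ C0 (Finset.range n) x) := rfl

lemma QQ_mem (n : ℕ) {u : C0 ⊗[ℝ] C0} (hu : u ∈ symSub C0) : QQ n u ∈ symSub C0 := by
  obtain ⟨_, m, l, x, rfl, -⟩ := costs_ne hu
  rw [map_sum]
  exact Submodule.sum_mem _ fun i _ => by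
    rw [map_smul]; exact Submodule.smul_mem _ _ (sq_mem _)

lemma approx {u : C0 ⊗[ℝ] C0} (hu : u ∈ symSub C0) :
    ∀ ε > 0, ∀ᶠ n in atTop, piS (u - QQ n u) ≤ ε := by
  induction hu using Submodule.span_induction with
  | mem _ h =>
    obtain ⟨x, rfl⟩ := h
    intro ε hε
    obtain ⟨t, ht, ht1, ht2⟩ : ∃ t : ℝ, 0 < t ∧ t ≤ 1 ∧ t * ((‖x‖ + 1) ^ 2 + 1) ≤ ε := by
      refine ⟨min 1 (ε / ((‖x‖ + 1) ^ 2 + 1)), by positivity, min_le_left _ _, ?_⟩
      rw [← le_div_iff₀ (by positivity)]; exact min_le_right _ _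
    obtain ⟨N, hN⟩ := eventually_atTop.1 (c0_ev x (show 0 < t ^ 2 by positivity))
    filter_upwards [eventually_ge_atTop N] with n hn
    set y := JJ C0 (Finset.range n) x with hy
    have h1 : ‖y‖ ≤ ‖x‖ := JJ_norm _ _ _ (norm_nonneg _) fun k _ => c0_abs x k
    have h2 : ‖x - y‖ ≤ t ^ 2 := c0_norm _ (by positivity) fun j => by
      rw [cf_sub, hy, JJ_app]
      split_ifs with k
      · simp; positivity
      · rw [sub_zero]; exact hN j (by simp at k; omega)
    have e : sq x - QQ n (sq x) = (y ⊗ₜ[ℝ] (x - y) + (x - y) ⊗ₜ[ℝ] y) + (1 : ℝ) • sq (x - y) := by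
      rw [QQ_sq, ← hy, one_smul]
      conv_lhs => rw [show x = y + (x - y) by abel, sq_add]
      abel
    show piS (sq x - QQ n (sq x)) ≤ ε
    rw [e]
    refine (piS_add (polar_mem _ _) (Submodule.smul_mem _ _ (sq_mem _))).trans ?_
    have a1 := piS_polar y (x - y) ht
    have a2 := piS_sq 1 (x - y)
    have a3 : t * ‖y‖ + ‖x - y‖ / t ≤ t * (‖x‖ + 1) := by
      have : ‖x - y‖ / t ≤ t := by rw [div_le_iff₀ ht]; linarith
      nlinarith
    have a4 := pow_le_pow_left₀ (by positivity) a3 2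
    have a5 := pow_le_pow_left₀ (norm_nonneg _) h2 2
    have a6 : (t * (‖x‖ + 1)) ^ 2 ≤ t * (‖x‖ + 1) ^ 2 := by
      rw [mul_pow]; gcongr; nlinarith
    have a7 : (t ^ 2) ^ 2 ≤ t := by
      have : t ^ 2 ≤ 1 := by nlinarith
      nlinarith [sq_nonneg t]
    rw [abs_one, one_mul] at a2
    linarith
  | zero => intro ε hε; simp [piS_zero, hε.le]
  | add u v hu hv ihu ihv =>
    intro ε hε
    filter_upwards [ihu (ε / 2) (by linarith), ihv (ε / 2) (by linarith)] with n h1 h2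
    rw [map_add, show u + v - (QQ n u + QQ n v) = (u - QQ n u) + (v - QQ n v) by abel]
    have := piS_add (Submodule.sub_mem _ hu (QQ_mem n hu)) (Submodule.sub_mem _ hv (QQ_mem n hv))
    linarith
  | smul c u hu ihu =>
    intro ε hε
    filter_upwards [ihu (ε / (|c| + 1)) (by positivity)] with n h1
    have e : c • u - QQ n (c • u) = c • (u - QQ n u) := by
      rw [map_smul]; exact (smul_sub _ _ _).symm
    rw [e]
    refine (piS_smul (Submodule.sub_mem _ hu (QQ_mem n hu)) c).trans ?_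
    rw [le_div_iff₀ (by positivity)] at h1
    have := piS_nonneg (u - QQ n u)
    nlinarith

lemma core (n : ℕ) (hn : 0 < n) (ι : Type) [Fintype ι] (κ σ : ι → ℝ) (y : ι → C0)
    (hσ : ∀ i, σ i = 1 ∨ σ i = -1)
    (h1 : ∑ i, κ i • sq (y i) = (2 : ℝ) • sq (ee C0 0))
    (h2 : ∑ i, |κ i| * ‖y i‖ ^ 2 ≤ 2 + 2 / 1000000)
    (h3 : |∑ i, σ i * κ i * y i 0 ^ 2| ≤ 2 / 1000000) :
    piS (∑ i, (σ i * κ i) • sq (JJ C0 (Finset.range n) (y i))) ≤ 1 / 10 := by
  have hev : ∀ k, ∑ i, κ i * y i k ^ 2 = if k = 0 then 2 else 0 := by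
    intro k
    have := congrArg (ev k) h1
    rw [map_sum, map_smul, ev_sq, ee_app] at this
    simp only [map_smul, ev_sq, smul_eq_mul] at this
    rw [this]; split_ifs <;> norm_num
  have hsq : ∀ i k, y i k ^ 2 ≤ ‖y i‖ ^ 2 := fun i k => by
    rw [← sq_abs]; exact pow_le_pow_left₀ (abs_nonneg _) (c0_abs _ _) 2
  have hneg : ∑ i, (|κ i| - κ i) * ‖y i‖ ^ 2 ≤ 4 / 1000000 := by
    have a1 : ∑ i, 2 * (κ i * y i 0 ^ 2) ≤ ∑ i, (|κ i| + κ i) * ‖y i‖ ^ 2 := by
      refine Finset.sum_le_sum fun i _ => ?_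
      have := hsq i 0
      rcases abs_cases (κ i) with k | k <;> rw [k.1] <;> nlinarith [k.2, sq_nonneg (y i 0)]
    rw [← Finset.mul_sum, hev 0, if_pos rfl] at a1
    have a2 : ∑ i, (|κ i| - κ i) * ‖y i‖ ^ 2 + ∑ i, (|κ i| + κ i) * ‖y i‖ ^ 2 =
        2 * ∑ i, |κ i| * ‖y i‖ ^ 2 := by
      rw [← Finset.sum_add_distrib, Finset.mul_sum]
      exact Finset.sum_congr rfl fun i _ => by ring
    linarith
  have hk : ∀ k, k ≠ 0 → ∑ i, |κ i| * y i k ^ 2 ≤ 4 / 1000000 := by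
    intro k hk
    have a1 := hev k
    rw [if_neg hk] at a1
    have a2 : ∑ i, |κ i| * y i k ^ 2 = ∑ i, (|κ i| - κ i) * y i k ^ 2 + ∑ i, κ i * y i k ^ 2 := by
      rw [← Finset.sum_add_distrib]
      exact Finset.sum_congr rfl fun i _ => by ring
    rw [a2, a1, add_zero]
    refine le_trans (Finset.sum_le_sum fun i _ => ?_) hneg
    exact mul_le_mul_of_nonneg_left (hsq i k) (by linarith [le_abs_self (κ i)])
  have h0 : ∑ i, |κ i| * y i 0 ^ 2 ≤ 3 :=
    (Finset.sum_le_sum fun i _ => mul_le_mul_of_nonneg_left (hsq i 0) (abs_nonneg _)).trans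
      (by linarith)
  have hab : ∀ i, |σ i * κ i| = |κ i| := fun i => by
    rcases hσ i with h | h <;> simp [h]
  let F := (Finset.range n).erase 0
  have hsplit : ∀ i, JJ C0 (Finset.range n) (y i) = y i 0 • ee C0 0 + JJ C0 F (y i) := by
    intro i
    show ∑ k ∈ Finset.range n, y i k • ee C0 k = y i 0 • ee C0 0 + ∑ k ∈ F, y i k • ee C0 k
    exact (Finset.add_sum_erase _ _ (Finset.mem_range.2 hn)).symm
  let w : ℕ → ℝ := ∑ i, (σ i * κ i * y i 0) • (y i : ℕ → ℝ)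
  have e : ∑ i, (σ i * κ i) • sq (JJ C0 (Finset.range n) (y i)) =
      (∑ i, σ i * κ i * y i 0 ^ 2) • sq (ee C0 0) + (ee C0 0 ⊗ₜ[ℝ] JJ C0 F w + JJ C0 F w ⊗ₜ[ℝ] ee C0 0) +
      (∑ i, max (σ i * κ i) 0 • sq (JJ C0 F (y i)) - ∑ i, max (-(σ i * κ i)) 0 • sq (JJ C0 F (y i))) := by
    simp only [w, map_sum, TensorProduct.tmul_sum, TensorProduct.sum_tmul, Finset.sum_smul]
    rw [← Finset.sum_sub_distrib, ← Finset.sum_add_distrib, ← Finset.sum_add_distrib,
      ← Finset.sum_add_distrib]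
    refine Finset.sum_congr rfl fun i _ => ?_
    rw [hsplit, sq_add, sq_smul, ← sub_smul, max_zero_sub_max_neg_zero_eq_self, map_smul]
    simp only [← TensorProduct.smul_tmul', TensorProduct.tmul_smul]
    module
  have hw : ‖JJ C0 F w‖ ≤ 35 / 10000 := by
    refine JJ_norm _ _ _ (by norm_num) fun k hkF => ?_
    have a1 := hk k (Finset.mem_erase.1 hkF).1
    simp only [w, Finset.sum_apply, Pi.smul_apply, smul_eq_mul]
    refine (Finset.abs_sum_le_sum_abs _ _).trans ?_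
    have a2 : ∑ i, |σ i * κ i * y i 0 * y i k| ≤
        ∑ i, ((1 / 2000) * (|κ i| * y i 0 ^ 2) + 500 * (|κ i| * y i k ^ 2)) := by
      refine Finset.sum_le_sum fun i _ => ?_
      rw [mul_assoc, abs_mul, hab, abs_mul]
      have : |y i 0| * |y i k| ≤ (1 / 2000) * y i 0 ^ 2 + 500 * y i k ^ 2 := by
        rw [← sq_abs (y i 0), ← sq_abs (y i k)]
        nlinarith [sq_nonneg (|y i 0| - 1000 * |y i k|)]
      nlinarith [mul_le_mul_of_nonneg_left this (abs_nonneg (κ i))]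
    rw [Finset.sum_add_distrib, ← Finset.mul_sum _ _ (1 / 2000), ← Finset.mul_sum _ _ 500] at a2
    linarith
  have hg : ∀ c : ι → ℝ, (∀ i, 0 ≤ c i) → (∀ i, c i ≤ |κ i|) →
      piS (∑ i, c i • sq (JJ C0 F (y i))) ≤ 33 * (4 / 1000000) := by
    intro c c0 c1
    refine groth' F (JJ C0 F) (JJ_norm F) _ (by norm_num) ι c (fun i => y i) c0 fun k hkF => ?_
    refine le_trans (Finset.sum_le_sum fun i _ => ?_) (hk k (Finset.mem_erase.1 hkF).1)
    exact mul_le_mul_of_nonneg_right (c1 i) (sq_nonneg _)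
  have g1 := hg (fun i => max (σ i * κ i) 0) (fun i => le_max_right _ _)
    fun i => max_le (hab i ▸ le_abs_self _) (abs_nonneg _)
  have g2 := hg (fun i => max (-(σ i * κ i)) 0) (fun i => le_max_right _ _)
    fun i => max_le (hab i ▸ neg_le_abs _) (abs_nonneg _)
  have s1 := Submodule.smul_mem _ (∑ i, σ i * κ i * y i 0 ^ 2) (sq_mem (ee C0 0))
  have s2 := polar_mem (ee C0 0) (JJ C0 F w)
  have s3 := sum_mem (fun i => max (σ i * κ i) 0) fun i => JJ C0 F (y i)
  have s4 := sum_mem (fun i => max (-(σ i * κ i)) 0) fun i => JJ C0 F (y i)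
  have c1 := piS_add (Submodule.add_mem _ s1 s2) (Submodule.sub_mem _ s3 s4)
  have c2 := piS_add s1 s2
  have c3 := piS_sub s3 s4
  have c4 := piS_sq (∑ i, σ i * κ i * y i 0 ^ 2) (ee C0 0)
  have c5 := piS_polar (ee C0 0) (JJ C0 F w) (show (0 : ℝ) < 1 / 10 by norm_num)
  rw [ee_norm] at c4 c5
  have c6 : (1 / 10 * 1 + ‖JJ C0 F w‖ / (1 / 10)) ^ 2 ≤ (135 / 1000) ^ 2 :=
    pow_le_pow_left₀ (by positivity) (by linarith) 2
  rw [e]
  linarith

lemma key {v : C0 ⊗[ℝ] C0} (hv : v ∈ symSub C0)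
    (h1 : piS (sq (ee C0 0) + v) < 1 + 1 / 1000000) (h2 : piS (sq (ee C0 0) - v) < 1 + 1 / 1000000) :
    piS v ≤ 1 / 2 := by
  have m1 := Submodule.add_mem _ (sq_mem (ee C0 0)) hv
  have m2 := Submodule.sub_mem _ (sq_mem (ee C0 0)) hv
  have v1 := ev_le m1 0
  have v2 := ev_le m2 0
  rw [map_add, ev_sq, ee_app, if_pos rfl] at v1
  rw [map_sub, ev_sq, ee_app, if_pos rfl] at v2
  obtain ⟨_, ⟨m, l, x, a1, rfl⟩, a2⟩ := exists_lt_of_csInf_lt (costs_ne m1) h1
  obtain ⟨_, ⟨m', l', x', b1, rfl⟩, b2⟩ := exists_lt_of_csInf_lt (costs_ne m2) h2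
  obtain ⟨n, hn1, hn⟩ := ((eventually_gt_atTop 0).and (approx hv (1 / 4) (by norm_num))).exists
  have e2 : ∑ i : Fin m ⊕ Fin m', (Sum.elim (fun _ => (1 : ℝ)) (fun _ => -1) i *
      Sum.elim l l' i) • sq (Sum.elim x x' i) = (2 : ℝ) • v := by
    rw [Fintype.sum_sum_type]
    simp only [Sum.elim_inl, Sum.elim_inr, one_mul, neg_mul, neg_smul, Finset.sum_neg_distrib]
    rw [← a1, ← b1]
    module
  have := core n hn1 (Fin m ⊕ Fin m') (Sum.elim l l') (Sum.elim (fun _ => 1) (fun _ => -1))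
    (Sum.elim x x') (by rintro (i | i) <;> simp) ?_ ?_ ?_
  · have e3 := congrArg (QQ n) e2
    rw [map_sum] at e3
    simp only [map_smul, QQ_sq] at e3
    rw [e3] at this
    have a3 := piS_smul (Submodule.smul_mem _ (2 : ℝ) (QQ_mem n hv)) (1 / 2)
    rw [smul_smul, abs_of_pos (by norm_num : (0 : ℝ) < 1 / 2)] at a3
    norm_num at a3
    have a4 := piS_add (Submodule.sub_mem _ hv (QQ_mem n hv)) (QQ_mem n hv)
    rw [sub_add_cancel] at a4
    linarith
  · rw [Fintype.sum_sum_type]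
    simp only [Sum.elim_inl, Sum.elim_inr]
    rw [← a1, ← b1]
    module
  · rw [Fintype.sum_sum_type]
    simp only [Sum.elim_inl, Sum.elim_inr]
    linarith
  · have e3 := congrArg (ev 0) e2
    rw [map_sum] at e3
    simp only [map_smul, ev_sq, smul_eq_mul] at e3
    rw [e3, abs_le]
    rw [abs_le] at v1 v2
    constructor <;> linarith [v1.2, v2.2]

theorem main : ¬ ASQ (UniformSpace.Completion (SymT C0)) := by
  intro h
  let E : SymT C0 := ⟨sq (ee C0 0), sq_mem _⟩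
  have hE : ‖(E : UniformSpace.Completion (SymT C0))‖ = 1 := by
    rw [UniformSpace.Completion.norm_coe]; exact piS_E
  obtain ⟨y, hy, h⟩ := h {(E : UniformSpace.Completion (SymT C0))} (by simpa using hE)
    (1 / 4000000) (by norm_num)
  obtain ⟨h1, h2⟩ := h _ (Finset.mem_singleton_self _)
  obtain ⟨v, hv⟩ := Metric.denseRange_iff.1 (UniformSpace.Completion.denseRange_coe (α := SymT C0))
    y (1 / 4000000) (by norm_num)
  rw [dist_eq_norm] at hv
  have a1 : ‖E + v‖ < 1 + 1 / 1000000 := by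
    rw [← UniformSpace.Completion.norm_coe, UniformSpace.Completion.coe_add]
    have := norm_sub_le ((E : UniformSpace.Completion (SymT C0)) + y) (y - v)
    rw [show (E : UniformSpace.Completion (SymT C0)) + y - (y - v) = E + v by abel] at this
    linarith
  have a2 : ‖E - v‖ < 1 + 1 / 1000000 := by
    rw [← UniformSpace.Completion.norm_coe, UniformSpace.Completion.coe_sub]
    have := norm_add_le ((E : UniformSpace.Completion (SymT C0)) - y) (y - v)
    rw [show (E : UniformSpace.Completion (SymT C0)) - y + (y - v) = E - v by abel] at this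
    linarith
  have a3 : ‖v‖ ≤ 1 / 2 := key v.2 a1 a2
  have a4 := norm_add_le (y - v) (v : UniformSpace.Completion (SymT C0))
  rw [sub_add_cancel, UniformSpace.Completion.norm_coe] at a4
  linarith

end

noncomputable def e0 (k : ℕ) : C₀(ℕ, ℝ) where
  toFun := fun j => if j = k then 1 else 0
  continuous_toFun := continuous_of_discreteTopology
  zero_at_infty' := by
    rw [cocompact_eq_cofinite, Nat.cofinite_eq_atTop]
    refine tendsto_const_nhds.congr' ?_
    filter_upwards [eventually_gt_atTop k] with j hj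
    simp [hj.ne']

noncomputable instance : SeqSp C₀(ℕ, ℝ) where
  co := fun k => { toFun := fun x => x k, map_add' := fun _ _ => rfl, map_smul' := fun _ _ => rfl }
  e := e0
  habs := fun x k => x.toBCF.norm_coe_le_norm k
  hnorm := fun x T hT h => (BoundedContinuousFunction.norm_le (f := x.toBCF) hT).2 h
  hev := fun x ε hε => by
    have h := x.zero_at_infty'
    rw [cocompact_eq_cofinite, Nat.cofinite_eq_atTop] at h
    have := (Metric.tendsto_nhds.1 h) ε hε
    exact this.mono fun k hk => by simpa [Real.dist_eq] using hk.le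
  happ := fun _ _ => rfl

end Pool.Agent.H.MP_b5276a_an
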