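import Mathlib

namespace Pool.Agent.H.MP_b5276a_an
open scoped TensorProduct

/-- almost square normed space -/
def ASQ (Y : Type*) [NormedAddCommGroup Y] : Prop :=
  ∀ s : Finset Y, (∀ x ∈ s, ‖x‖ = 1) → ∀ ε > 0, ∃ y : Y, ‖y‖ = 1 ∧
    ∀ x ∈ s, ‖x + y‖ ≤ 1 + ε ∧ ‖x - y‖ ≤ 1 + ε

variable (X : Type*) [NormedAddCommGroup X] [NormedSpace ℝ X]

/-- the algebraic symmetric tensor square: span of the tensors `x ⊗ x` -/
def symSub : Submodule ℝ (X ⊗[ℝ] X) := Submodule.span ℝ (Set.range fun x : X => x ⊗ₜ[ℝ] x)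

variable {X} in
/-- the costs of all finite representations of `u` by elementary symmetric tensors -/
def costs (u : X ⊗[ℝ] X) : Set ℝ :=
  {r | ∃ (m : ℕ) (l : Fin m → ℝ) (x : Fin m → X),
    u = ∑ i, l i • (x i ⊗ₜ[ℝ] x i) ∧ r = ∑ i, |l i| * ‖x i‖ ^ 2}

variable {X} in
/-- the symmetric projective norm -/
noncomputable def piS (u : X ⊗[ℝ] X) : ℝ := sInf (costs u)

/-- the symmetric tensor square, to be normed by `piS` -/
def SymT : Type _ := symSub X

noncomputable instance : AddCommGroup (SymT X) := inferInstanceAs (AddCommGroup (symSub X))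

variable {X}

lemma costs_bdd (u : X ⊗[ℝ] X) : BddBelow (costs u) :=
  ⟨0, by rintro r ⟨m, l, x, -, rfl⟩; positivity⟩

lemma costs_ne {u : X ⊗[ℝ] X} (h : u ∈ symSub X) : (costs u).Nonempty := by
  obtain ⟨m, l, g, rfl⟩ := Submodule.mem_span_set'.1 h
  choose x hx using fun i => (g i).2
  exact ⟨_, m, l, x, Finset.sum_congr rfl fun i _ => by rw [← hx i], rfl⟩

lemma piS_nonneg (u : X ⊗[ℝ] X) : 0 ≤ piS u :=
  Real.sInf_nonneg (by rintro r ⟨m, l, x, -, rfl⟩; positivity)

lemma piS_zero : piS (0 : X ⊗[ℝ] X) = 0 :=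
  le_antisymm (csInf_le (costs_bdd _) ⟨0, 0, 0, by simp, by simp⟩) (piS_nonneg _)

lemma piS_add {u v : X ⊗[ℝ] X} (hu : u ∈ symSub X) (hv : v ∈ symSub X) :
    piS (u + v) ≤ piS u + piS v := by
  refine le_of_forall_pos_le_add fun ε hε => ?_
  obtain ⟨_, ⟨m, l, x, h1, rfl⟩, h2⟩ := exists_lt_of_csInf_lt (costs_ne hu)
    (show piS u < piS u + ε / 2 by linarith)
  obtain ⟨_, ⟨m', l', x', h1', rfl⟩, h2'⟩ := exists_lt_of_csInf_lt (costs_ne hv)
    (show piS v < piS v + ε / 2 by linarith)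
  have : piS (u + v) ≤ ∑ i, |Fin.append l l' i| * ‖Fin.append x x' i‖ ^ 2 :=
    csInf_le (costs_bdd _) ⟨m + m', Fin.append l l', Fin.append x x', by
      rw [Fin.sum_univ_add]; simp [h1, h1'], rfl⟩
  rw [Fin.sum_univ_add] at this
  simp only [Fin.append_left, Fin.append_right] at this
  linarith

lemma costs_neg {u : X ⊗[ℝ] X} {r : ℝ} (h : r ∈ costs u) : r ∈ costs (-u) := by
  obtain ⟨m, l, x, h1, rfl⟩ := h
  exact ⟨m, -l, x, by simp [h1], by simp⟩

lemma piS_neg (u : X ⊗[ℝ] X) : piS (-u) = piS u := by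
  unfold piS
  congr 1
  exact Set.ext fun r => ⟨fun h => by simpa using costs_neg h, costs_neg⟩

variable (X) in
/-- the norm of the symmetric tensor square is `piS` -/
noncomputable instance : SeminormedAddCommGroup (SymT X) :=
  AddGroupSeminorm.toSeminormedAddCommGroup
    { toFun := fun u => piS u.1
      map_zero' := piS_zero
      add_le' := fun u v => piS_add u.2 v.2
      neg' := fun u => piS_neg u.1 }

end Pool.Agent.H.MP_b5276a_an
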